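import Pool.Agent.Lib.MP_ff3579_an.X.Iface

set_option autoImplicit false

/-!
# Module SML: the finite check `N < 25000` (helper58)

For `k ≤ 13` a chain of points `x` (gaps at most `4k`), each one a small prime or a number with a prime
factor `≥ P(k)`; for `k ≥ 14` a chain of primes with gaps at most `56`. The chains are found and checked
by the kernel (greedy search).
-/

namespace Pool.Agent.Lib.MP_ff3579_an.X.H58

open Pool.Agent.Lib.MP_ff3579_an.X

/-- evaluate `n` before it is passed on -/
def ev (n : ℕ) (g : ℕ → Bool) : Bool :=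
  Nat.rec (motive := fun _ => Bool) (g 0) (fun m _ => g (Nat.succ m)) n

theorem ev_eq (n : ℕ) (g : ℕ → Bool) : ev n g = g n := by
  cases n <;> rfl

/-- the largest `d ≤ s`, `d > 0`, such that `x + d` passes the test (or `0`) -/
def fnd (t : ℕ → Bool) (x s : ℕ) : ℕ :=
  Nat.rec (motive := fun _ => ℕ) 0
    (fun d r => bif t (Nat.add x (Nat.succ d)) then Nat.succ d else r) s

/-- greedy chain with steps `≤ s` from `x` to at least `25000` -/
def run (t : ℕ → Bool) (s : ℕ) (f : ℕ) : ℕ → Bool :=
  Nat.rec (motive := fun _ => ℕ → Bool) (fun _ => false)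
    (fun _ r x => bif Nat.ble 25000 x then true else
      ev (fnd t x s) fun d => bif Nat.beq d 0 then false else ev (Nat.add x d) r) f

theorem fnd_zero (t : ℕ → Bool) (x : ℕ) : fnd t x 0 = 0 := rfl

theorem fnd_succ (t : ℕ → Bool) (x s : ℕ) :
    fnd t x (s + 1) = bif t (x + (s + 1)) then s + 1 else fnd t x s := rfl

theorem run_zero (t : ℕ → Bool) (s x : ℕ) : run t s 0 x = false := rfl

theorem run_succ (t : ℕ → Bool) (s f x : ℕ) :
    run t s (f + 1) x = bif Nat.ble 25000 x then true else
      ev (fnd t x s) fun d => bif Nat.beq d 0 then false else ev (x + d) (run t s f) := rfl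

theorem fnd_sound (t : ℕ → Bool) (x : ℕ) : ∀ s, fnd t x s ≤ s ∧
    (fnd t x s ≠ 0 → t (x + fnd t x s) = true) := by
  intro s
  induction s with
  | zero => exact ⟨le_rfl, fun h => absurd rfl h⟩
  | succ s ih =>
    rw [fnd_succ]
    cases ht : t (x + (s + 1))
    · rw [cond_false]
      exact ⟨ih.1.trans (Nat.le_succ s), ih.2⟩
    · rw [cond_true]
      exact ⟨le_rfl, fun _ => ht⟩

/-- every `N < 25000` with `x ≤ N + a` is within distance `a` of a point of `Q` -/
def Cov (Q : ℕ → Prop) (a x : ℕ) : Prop :=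
  ∀ N, N < 25000 → x ≤ N + a → ∃ x', Q x' ∧ N < x' + a ∧ x' ≤ N + a

theorem cov_step {Q : ℕ → Prop} {a x y : ℕ} (hx : Q x) (hy : Cov Q a y) (h : y ≤ x + 2 * a) :
    Cov Q a x := by
  intro N hN hxN
  rcases Nat.lt_or_ge N (x + a) with h1 | h1
  · exact ⟨x, hx, h1, hxN⟩
  · exact hy N hN (by omega)

theorem run_sound {Q : ℕ → Prop} {t : ℕ → Bool} {a : ℕ} (ha : 0 < a)
    (ht : ∀ x, 0 < x → x < 25000 + 2 * a → t x = true → Q x) :
    ∀ f x, run t (2 * a) f x = true → Q x → Cov Q a x := by
  intro f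
  induction f with
  | zero => intro x h; rw [run_zero] at h; exact absurd h (by decide)
  | succ f ih =>
    intro x h hx
    rw [run_succ] at h
    cases hb : Nat.ble 25000 x
    · rw [hb, cond_false, ev_eq] at h
      have hb' : x < 25000 := by
        rw [← Bool.not_eq_true, Nat.ble_eq] at hb
        omega
      obtain ⟨h1, h2⟩ := fnd_sound t x (2 * a)
      obtain ⟨d, hd⟩ : ∃ d, d = fnd t x (2 * a) := ⟨_, rfl⟩
      rw [← hd] at h h1 h2
      cases hz : Nat.beq d 0
      · rw [hz, cond_false, ev_eq] at h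
        have hd0 : d ≠ 0 := by
          intro h0
          rw [h0] at hz
          exact absurd hz (by decide)
        exact cov_step hx (ih (x + d) h (ht _ (by omega) (by omega) (h2 hd0))) (by omega)
      · rw [hz, cond_true] at h
        exact absurd h (by decide)
    · have hb' : 25000 ≤ x := Nat.le_of_ble_eq_true hb
      intro N hN hxN
      exact ⟨x, hx, by omega, hxN⟩

/-! ### numbers with a large prime factor -/

theorem exists_prime_ge {P x : ℕ} (hx : 0 < x) (hx2 : x < 2 ^ 15)
    (h : ¬ x ∣ (P - 1).factorial ^ 15) : ∃ p, p.Prime ∧ P ≤ p ∧ p ∣ x := by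
  by_contra hcon
  push Not at hcon
  apply h
  have hM : (P - 1).factorial ^ 15 ≠ 0 := pow_ne_zero _ (Nat.factorial_ne_zero _)
  rw [← Nat.factorization_prime_le_iff_dvd hx.ne' hM]
  intro p hp
  by_cases hpx : p ∣ x
  · have hpP : p < P := by
      by_contra h1
      exact hcon p hp (by omega) hpx
    have h1 : p ∣ (P - 1).factorial := Nat.dvd_factorial hp.pos (by omega)
    have h2 : 1 ≤ (P - 1).factorial.factorization p :=
      (hp.dvd_iff_one_le_factorization (Nat.factorial_ne_zero _)).1 h1
    rw [Nat.factorization_pow, Finsupp.smul_apply, smul_eq_mul]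
    have h3 : x.factorization p < 15 := by
      have h4 : p ^ x.factorization p ≤ x := Nat.ordProj_le p hx.ne'
      have h5 : 2 ^ x.factorization p ≤ p ^ x.factorization p :=
        Nat.pow_le_pow_left hp.two_le _
      exact (Nat.pow_lt_pow_iff_right (by norm_num : 1 < 2)).1 ((h5.trans h4).trans_lt hx2)
    omega
  · rw [Nat.factorization_eq_zero_of_not_dvd hpx]
    exact Nat.zero_le _

/-- test: `x` has a prime factor `≥ P`, where `M = ((P-1)!)^15` -/
def tst (M x : ℕ) : Bool := Nat.blt 0 (Nat.mod M x)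

theorem tst_sound {P x : ℕ} (hx : 0 < x) (hx2 : x < 2 ^ 15)
    (h : tst ((P - 1).factorial ^ 15) x = true) : ∃ p, p.Prime ∧ P ≤ p ∧ p ∣ x := by
  refine exists_prime_ge hx hx2 fun hd => ?_
  unfold tst at h
  rw [Nat.blt_eq] at h
  have : (P - 1).factorial ^ 15 % x = 0 := Nat.mod_eq_zero_of_dvd hd
  have h' : 0 < (P - 1).factorial ^ 15 % x := h
  omega

/-- the points of the chain for `k ≤ 13` -/
def QQ (k P x : ℕ) : Prop :=
  (x.Prime ∧ 3 ≤ x ∧ 4 * k ≤ x + 1) ∨ ∃ p, p.Prime ∧ P ≤ p ∧ p ∣ x

theorem near_of {k N x : ℕ} (hx : x.Prime) (h3 : 3 ≤ x) (h4 : 4 * k ≤ x + 1) (hk : 1 ≤ k)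
    (hN : 4 * k ≤ N) (h1 : N < x + 2 * k) (h2 : x ≤ N + 2 * k) : Near N k := by
  refine ⟨x, hx, h3, ?_⟩
  rcases Nat.lt_or_ge N x with h | h
  · right
    refine ⟨h, by omega, ?_⟩
    omega
  · left
    refine ⟨h, by omega, ?_⟩
    omega

theorem good_of {k P l N x p : ℕ} (hp : p.Prime) (hP : P ≤ p) (hpx : p ∣ x)
    (h8 : 8 * k ≤ P + 2) (hl : 2 * k * (2 + l) ≤ P) (hlP : 50000 ≤ P ^ (l + 1)) (hN : N < 25000)
    (hP2 : 2 ≤ P) (h1 : N < x + 2 * k) (h2 : x ≤ N + 2 * k) : Good N k := by
  refine ⟨p, x, 1, hp, by omega, h1, h2, le_rfl, by simpa using hpx, Or.inl ?_⟩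
  have h3 : Nat.log p (2 * N) ≤ l := by
    have h4 : 2 * N < p ^ (l + 1) := by
      have : P ^ (l + 1) ≤ p ^ (l + 1) := Nat.pow_le_pow_left hP _
      omega
    have := Nat.log_lt_of_lt_pow' (by omega) h4
    omega
  calc 2 * k * (2 + Nat.log p (2 * N)) ≤ 2 * k * (2 + l) := Nat.mul_le_mul_left _ (by omega)
    _ ≤ P := hl
    _ ≤ p := hP

/-- the case of one `k` -/
theorem one_k {k P l x : ℕ} (hk : 1 ≤ k) (h8 : 8 * k ≤ P + 2) (hl : 2 * k * (2 + l) ≤ P)
    (hlP : 50000 ≤ P ^ (l + 1)) (hP2 : 2 ≤ P) (hx : x ≤ 6 * k) (hc : Cov (QQ k P) (2 * k) x) :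
    ∀ N, N < 25000 → 4 * k ≤ N → Near N k ∨ Good N k := by
  intro N hN h4
  obtain ⟨x', hQ, h1, h2⟩ := hc N hN (by omega)
  rcases hQ with ⟨h5, h6, h7⟩ | ⟨p, hp, hP, hpx⟩
  · exact Or.inl (near_of h5 h6 h7 hk h4 h1 h2)
  · exact Or.inr (good_of hp hP hpx h8 hl hlP hN hP2 h1 h2)

theorem cov_run {k P f x : ℕ} (hk : 1 ≤ k) (hk2 : k ≤ 100)
    (h : run (tst ((P - 1).factorial ^ 15)) (4 * k) f x = true)
    (hx : x.Prime ∧ 3 ≤ x ∧ 4 * k ≤ x + 1) : Cov (QQ k P) (2 * k) x := by
  refine run_sound (t := tst ((P - 1).factorial ^ 15)) (by omega) (fun z hz hz2 ht => ?_) f x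
    (by rw [show 2 * (2 * k) = 4 * k by ring]; exact h) (Or.inl hx)
  exact Or.inr (tst_sound hz (by
    have : (2:ℕ) ^ 15 = 32768 := by norm_num
    omega) ht)

/-! ### primes -/

/-- test for a prime between `158` and `25281` -/
def tsp (W x : ℕ) : Bool := Nat.beq (Nat.gcd x W) 1

theorem tsp_sound {x : ℕ} (hx : 158 < x) (hx2 : x < 25281)
    (h : tsp (Nat.factorial 158) x = true) : x.Prime := by
  have h1 : Nat.gcd x (Nat.factorial 158) = 1 := Nat.eq_of_beq_eq_true h
  by_contra hn
  have h2 := Nat.minFac_prime (by omega : x ≠ 1)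
  have h3 : x.minFac ^ 2 ≤ x := Nat.minFac_sq_le_self (by omega) hn
  have h4 : x.minFac < 159 := by
    by_contra h5
    have h6 : 159 ^ 2 ≤ x.minFac ^ 2 := Nat.pow_le_pow_left (by omega) 2
    omega
  have h5 : x.minFac ∣ Nat.factorial 158 := Nat.dvd_factorial h2.pos (by omega)
  have h6 := Nat.dvd_gcd (Nat.minFac_dvd x) h5
  rw [h1] at h6
  exact h2.one_lt.ne' (Nat.dvd_one.1 h6)

/-- the case `k ≥ 14` -/
theorem big_k (hc : Cov (fun x => x.Prime ∧ 55 ≤ x) 28 83) :
    ∀ N k, N < 25000 → 14 ≤ k → 4 * k ≤ N → Near N k := by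
  intro N k hN hk h4
  obtain ⟨x, ⟨hp, h55⟩, h1, h2⟩ := hc N hN (by omega)
  refine ⟨x, hp, by omega, ?_⟩
  rcases Nat.lt_or_ge N x with h | h
  · right
    exact ⟨h, by omega, by omega⟩
  · left
    exact ⟨h, by omega, by omega⟩

/-! ### the computations -/

set_option maxRecDepth 1000000

theorem r1 : run (tst ((13 - 1).factorial ^ 15)) (4 * 1) 6296 11 = true := by
  decide +kernel

theorem r2 : run (tst ((23 - 1).factorial ^ 15)) (4 * 2) 3165 19 = true := by
  decide +kernel

theorem r3 : run (tst ((31 - 1).factorial ^ 15)) (4 * 3) 2108 29 = true := by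
  decide +kernel

theorem r4 : run (tst ((37 - 1).factorial ^ 15)) (4 * 4) 1585 23 = true := by
  decide +kernel

theorem r5 : run (tst ((40 - 1).factorial ^ 15)) (4 * 5) 1268 29 = true := by
  decide +kernel

theorem r6 : run (tst ((48 - 1).factorial ^ 15)) (4 * 6) 1060 31 = true := by
  decide +kernel

theorem r7 : run (tst ((56 - 1).factorial ^ 15)) (4 * 7) 909 41 = true := by
  decide +kernel

theorem r8 : run (tst ((64 - 1).factorial ^ 15)) (4 * 8) 797 47 = true := by
  decide +kernel

theorem r9 : run (tst ((72 - 1).factorial ^ 15)) (4 * 9) 710 53 = true := by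
  decide +kernel

theorem r10 : run (tst ((80 - 1).factorial ^ 15)) (4 * 10) 639 59 = true := by
  decide +kernel

theorem r11 : run (tst ((88 - 1).factorial ^ 15)) (4 * 11) 581 61 = true := by
  decide +kernel

theorem r12 : run (tst ((96 - 1).factorial ^ 15)) (4 * 12) 534 71 = true := by
  decide +kernel

theorem r13 : run (tst ((104 - 1).factorial ^ 15)) (4 * 13) 494 73 = true := by
  decide +kernel

theorem rp : run (tsp (Nat.factorial 158)) (2 * 28) 600 193 = true := by decide +kernel

theorem covP : Cov (fun x => x.Prime ∧ 55 ≤ x) 28 83 := by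
  have h : Cov (fun x => x.Prime ∧ 55 ≤ x) 28 193 := by
    -- the chain keeps `x > 158`
    have key : ∀ f x, run (tsp (Nat.factorial 158)) (2 * 28) f x = true →
        (x.Prime ∧ 158 < x) → Cov (fun x => x.Prime ∧ 158 < x) 28 x := by
      intro f
      induction f with
      | zero => intro x h; rw [run_zero] at h; exact absurd h (by decide)
      | succ f ih =>
        intro x h hx
        rw [run_succ] at h
        cases hb : Nat.ble 25000 x
        · rw [hb, cond_false, ev_eq] at h
          have hb' : x < 25000 := by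
            rw [← Bool.not_eq_true, Nat.ble_eq] at hb
            omega
          obtain ⟨h1, h2⟩ := fnd_sound (tsp (Nat.factorial 158)) x (2 * 28)
          obtain ⟨d, hd⟩ : ∃ d, d = fnd (tsp (Nat.factorial 158)) x (2 * 28) := ⟨_, rfl⟩
          rw [← hd] at h h1 h2
          cases hz : Nat.beq d 0
          · rw [hz, cond_false, ev_eq] at h
            have hd0 : d ≠ 0 := by
              intro h0
              rw [h0] at hz
              exact absurd hz (by decide)
            have hp := tsp_sound (by omega) (by omega) (h2 hd0)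
            exact cov_step hx (ih (x + d) h ⟨hp, by omega⟩) (by omega)
          · rw [hz, cond_true] at h
            exact absurd h (by decide)
        · have hb' : 25000 ≤ x := Nat.le_of_ble_eq_true hb
          intro N hN hxN
          exact ⟨x, hx, by omega, hxN⟩
    intro N hN hxN
    obtain ⟨x', hQ, h1, h2⟩ := key _ 193 rp ⟨by norm_num, by norm_num⟩ N hN hxN
    exact ⟨x', ⟨hQ.1, by have := hQ.2; omega⟩, h1, h2⟩
  exact cov_step ⟨by norm_num, by norm_num⟩
    (cov_step (y := 193) (x := 139) ⟨by norm_num, by norm_num⟩ h (by norm_num)) (by norm_num)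

theorem sml : SmlStatement := by
  intro N k h4 hN hk h4k
  rcases Nat.lt_or_ge 13 k with h | h
  · exact Or.inl (big_k covP N k hN h h4k)
  · have aux : ∀ {k P l x f : ℕ}, 1 ≤ k → k ≤ 100 → 8 * k ≤ P + 2 → 2 * k * (2 + l) ≤ P →
        50000 ≤ P ^ (l + 1) → 2 ≤ P → x ≤ 6 * k →
        run (tst ((P - 1).factorial ^ 15)) (4 * k) f x = true →
        (x.Prime ∧ 3 ≤ x ∧ 4 * k ≤ x + 1) → 4 * k ≤ N → Near N k ∨ Good N k :=
      fun h1 h2 h3 h4 h5 h6 h7 h8 h9 h10 =>
        one_k h1 h3 h4 h5 h6 h7 (cov_run h1 h2 h8 h9) N hN h10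
    interval_cases k
    · refine one_k (P := 13) (l := 4) (x := 5) (by norm_num) (by norm_num) (by norm_num)
        (by norm_num) (by norm_num) (by norm_num) ?_ N hN h4k
      have h11 := cov_run (k := 1) (P := 13) (by norm_num) (by norm_num) r1
        ⟨by norm_num, by norm_num, by norm_num⟩
      have h7 := cov_step (x := 7) (Or.inl ⟨by norm_num, by norm_num, by norm_num⟩) h11
        (by norm_num)
      exact cov_step (x := 5) (Or.inl ⟨by norm_num, by norm_num, by norm_num⟩) h7 (by norm_num)
    · refine one_k (P := 23) (l := 3) (x := 11) (by norm_num) (by norm_num) (by norm_num)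
        (by norm_num) (by norm_num) (by norm_num) ?_ N hN h4k
      have h11 := cov_run (k := 2) (P := 23) (by norm_num) (by norm_num) r2
        ⟨by norm_num, by norm_num, by norm_num⟩
      exact cov_step (x := 11) (Or.inl ⟨by norm_num, by norm_num, by norm_num⟩) h11 (by norm_num)
    · refine one_k (P := 31) (l := 3) (x := 17) (by norm_num) (by norm_num) (by norm_num)
        (by norm_num) (by norm_num) (by norm_num) ?_ N hN h4k
      have h11 := cov_run (k := 3) (P := 31) (by norm_num) (by norm_num) r3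
        ⟨by norm_num, by norm_num, by norm_num⟩
      exact cov_step (x := 17) (Or.inl ⟨by norm_num, by norm_num, by norm_num⟩) h11 (by norm_num)
    · exact aux (P := 37) (l := 2) (by norm_num) (by norm_num) (by norm_num) (by norm_num)
        (by norm_num) (by norm_num) (by norm_num) r4 ⟨by norm_num, by norm_num, by norm_num⟩ h4k
    · exact aux (P := 40) (l := 2) (by norm_num) (by norm_num) (by norm_num) (by norm_num)
        (by norm_num) (by norm_num) (by norm_num) r5 ⟨by norm_num, by norm_num, by norm_num⟩ h4k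
    · exact aux (P := 48) (l := 2) (by norm_num) (by norm_num) (by norm_num) (by norm_num)
        (by norm_num) (by norm_num) (by norm_num) r6 ⟨by norm_num, by norm_num, by norm_num⟩ h4k
    · exact aux (P := 56) (l := 2) (by norm_num) (by norm_num) (by norm_num) (by norm_num)
        (by norm_num) (by norm_num) (by norm_num) r7 ⟨by norm_num, by norm_num, by norm_num⟩ h4k
    · exact aux (P := 64) (l := 2) (by norm_num) (by norm_num) (by norm_num) (by norm_num)
        (by norm_num) (by norm_num) (by norm_num) r8 ⟨by norm_num, by norm_num, by norm_num⟩ h4k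
    · exact aux (P := 72) (l := 2) (by norm_num) (by norm_num) (by norm_num) (by norm_num)
        (by norm_num) (by norm_num) (by norm_num) r9 ⟨by norm_num, by norm_num, by norm_num⟩ h4k
    · exact aux (P := 80) (l := 2) (by norm_num) (by norm_num) (by norm_num) (by norm_num)
        (by norm_num) (by norm_num) (by norm_num) r10 ⟨by norm_num, by norm_num, by norm_num⟩ h4k
    · exact aux (P := 88) (l := 2) (by norm_num) (by norm_num) (by norm_num) (by norm_num)
        (by norm_num) (by norm_num) (by norm_num) r11 ⟨by norm_num, by norm_num, by norm_num⟩ h4k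
    · exact aux (P := 96) (l := 2) (by norm_num) (by norm_num) (by norm_num) (by norm_num)
        (by norm_num) (by norm_num) (by norm_num) r12 ⟨by norm_num, by norm_num, by norm_num⟩ h4k
    · exact aux (P := 104) (l := 2) (by norm_num) (by norm_num) (by norm_num) (by norm_num)
        (by norm_num) (by norm_num) (by norm_num) r13 ⟨by norm_num, by norm_num, by norm_num⟩ h4k

end Pool.Agent.Lib.MP_ff3579_an.X.H58
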